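import Pool.Agent.K13.TP.Fin2

/-!
# The joint moment `∫ ψ f g k dμ` for degenerate and right triangles (MP_a28cf0_nt)

The plane is `ℂ`, with the upper half plane `HH` and `dμ = dx dy / y²`. `dx f z`, `dy f z` are the
partial derivatives `fderiv ℝ f z 1`, `fderiv ℝ f z I`; `TF U φ` says that `φ : ℂ → ℝ` is smooth
with compact support contained in `U`.

`JointCubicTriple` shows `∫ ψ f g k dμ → 0` for comparable spectral parameters when the largest one
is not close to the sum of the others. Here no condition of this kind is made: for a pair `f`, `g` of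
quantum ergodic sequences and all comparable spectral parameters the moment is bounded by the excess
of the fourth moments of `f` and `g` over those of the Gaussian field, with the constant `1/3`. In
particular `∫ ψ f g k dμ → 0` for every test function `ψ` and all comparable spectral parameters
(degenerate triangles included) if the local fourth moments of `f` are asymptotically Gaussian and
those of `g` are bounded.

Proof. In the ring of the four-point functions (`Pool.Agent.K13.TP.Ring`) the relation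
`x² - 2 (1 + ρ²) x + (ρ² - 1)² = - P x` holds exactly, where `x` is the frequency of the product of a
wave of `f` and a wave of `g` and `P` the frequency of the product of two waves of `f`
(`Pool.Agent.K13.TP.Ring2`). For
`F(Y) = (Y² - (ρ² - 1)²) (Y + (Y² - 2 (1 + ρ²) Y + (ρ² - 1)²) / (4 ρ²))^M H(Y)` the product of the
two symbols is `(4 ρ² - P) (4 - P) (1 - P / (4 ρ²))^{2M} G(x)`, so that the mean square of `F(L) (f g)`
is bounded by the mean squares of two expressions in `f` and in `g` with symbols concentrated at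
`P = 0` (`Pool.Agent.K13.TP.Sym2`, `Pool.Agent.K13.TP.Sqb2`). Their mean squares are the fourth moments
in excess of the Gaussian ones, times `2/3` of the squares of the values at `P = 0`, up to small
errors (`Pool.Agent.K13.TP.Sq2`, `Pool.Agent.K13.TP.LimD`). The right triangles are treated with
`F(Y) = (Y² - 2 (1 + ρ²) Y + (ρ² - 1)²) (Y + ρ² - 1) (Y² - c (Y - (ρ² - 1))⁴)^M H(Y)`
(`Pool.Agent.K13.TP.LimR`).
-/

set_option autoImplicit false
open MeasureTheory Filter Topology Complex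
open scoped ContDiff

namespace Pool.Agent.Results.MP_a28cf0_nt.JointCubicDegenerate

open Pool.Agent.W745.RW (TF dx dy lap)
open Pool.Agent.K13.TP (J3 FD3 MT)

/-- the open upper half plane -/
def HH : Set ℂ := {z | 0 < z.im}

/-- the eigenvalue `1/4 + t²` -/
noncomputable def ev (t : ℝ) : ℝ := 1 / 4 + t ^ 2

/-- `f` is a smooth real solution of `-y² (∂x² + ∂y²) f = (1/4 + t²) f` on the upper half plane -/
def Eig (t : ℝ) (f : ℂ → ℝ) : Prop :=
  ContDiffOn ℝ ∞ f HH ∧ ∀ z ∈ HH, -(z.im ^ 2 * (dx (dx f) z + dy (dy f) z)) = ev t * f z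

/-- the operator `f ↦ lam^{-1/2} y (∂x f - i ∂y f)` -/
noncomputable def RO (lam : ℝ) (f : ℂ → ℂ) (z : ℂ) : ℂ :=
  ((z.im / √lam : ℝ) : ℂ) * (dx f z - I * dy f z)

/-- quantum unique ergodicity in microlocal form: `∫ φ f (RO^k f) dμ → ∫ φ dμ` for `k = 0`, and
`→ 0` for `k ≥ 1` -/
def QUE (t : ℕ → ℝ) (f : ℕ → ℂ → ℝ) : Prop :=
  ∀ φ, TF HH φ → ∀ k : ℕ, Tendsto (fun n => ∫ z, ((φ z / z.im ^ 2 : ℝ) : ℂ) *
    ((f n z : ℂ) * (RO (ev (t n)))^[k] (fun w => (f n w : ℂ)) z)) atTop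
    (𝓝 (if k = 0 then ((∫ z, φ z / z.im ^ 2 : ℝ) : ℂ) else 0))

/-- the joint moment `∫ ψ f g k dμ` -/
noncomputable def J (ψ f g k : ℂ → ℝ) : ℝ := ∫ z, ψ z * (f z * g z * k z) / z.im ^ 2

/-- the mean square `∫ ψ k² dμ` -/
noncomputable def ms (ψ k : ℂ → ℝ) : ℝ := ∫ z, ψ z * k z ^ 2 / z.im ^ 2

/-- the excess `∫ ψ f⁴ dμ - 3 ∫ ψ dμ` of the fourth moment -/
noncomputable def ex (ψ f : ℂ → ℝ) : ℝ :=
  (∫ z, ψ z * f z ^ 4 / z.im ^ 2) - 3 * ∫ z, ψ z / z.im ^ 2

/-- the functions are bounded in `L²(K, dμ)` for every compact set `K` -/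
def LocBd (k : ℕ → ℂ → ℝ) : Prop := ∀ K : Set ℂ, IsCompact K → K ⊆ HH →
  ∃ C : ℝ, ∀ᶠ n in atTop, ∫ z in K, k n z ^ 2 / z.im ^ 2 ≤ C

/-- `t` and `s` are comparable, and `u` is not much smaller -/
def Comp (t s u : ℕ → ℝ) : Prop := ∃ δ : ℝ, 0 < δ ∧ ∀ᶠ n in atTop,
  δ * t n ≤ s n ∧ δ * s n ≤ t n ∧ δ * t n ≤ u n

/-- `u²` stays away from `|t² - s²|`, relative to `t²` -/
def NR (t s u : ℕ → ℝ) : Prop := ∃ δ : ℝ, 0 < δ ∧ ∀ᶠ n in atTop,
  δ * t n ^ 2 ≤ |u n ^ 2 - abs (t n ^ 2 - s n ^ 2)|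

lemma ev_pos (t : ℝ) : 0 < ev t := by unfold ev; positivity

lemma HHo : IsOpen HH := isOpen_lt continuous_const continuous_im

lemma qs {t : ℕ → ℝ} (ht : Tendsto t atTop atTop) {f : ℕ → ℂ → ℝ}
    (hf : ∀ n, Eig (t n) (f n)) (hqe : QUE t f) :
    Pool.Agent.R314.JN.QS HH (fun n => Pool.Agent.K13.TP.evv (t n)) f := by
  refine ⟨fun n => ev_pos (t n), Pool.Agent.K13.TP.evv_top ht, fun n => (hf n).1,
    fun n z hz => ?_, hqe⟩
  have h1 := (hf n).2 z hz
  show z.im ^ 2 * (dx (dx (f n)) z + dy (dy (f n)) z) + ev (t n) * f n z = 0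
  linarith

lemma tf {ψ : ℂ → ℝ} (hψ : TF HH ψ) : TF HH (fun z => ψ z / z.im ^ 2) := by
  have sy : ContDiffOn ℝ ∞ (fun z : ℂ => (z.im ^ 2)⁻¹) HH := by
    refine ContDiffOn.inv ((imCLM.contDiff.pow 2).contDiffOn) fun z hz => ?_
    have : 0 < z.im := hz
    exact pow_ne_zero 2 this.ne'
  exact Pool.Agent.TH294.RS.TF.mulc HHo hψ sy

lemma J_eq (ψ f g k : ℂ → ℝ) : J ψ f g k = J3 (fun z => ψ z / z.im ^ 2) f g k := by
  unfold J J3
  congr 1; funext z; ring

lemma ex_eq (ψ f : ℂ → ℝ) : ex ψ f = Pool.Agent.Y265.HY.JC.eX (fun z => ψ z / z.im ^ 2) f := by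
  unfold ex Pool.Agent.Y265.HY.JC.eX
  congr 2; funext z; ring

lemma ms_eq (ψ f : ℂ → ℝ) : ms ψ f = Pool.Agent.Y265.HY.JC.mS (fun z => ψ z / z.im ^ 2) f := by
  unfold ms Pool.Agent.Y265.HY.JC.mS
  congr 1; funext z; ring

lemma nn {ψ : ℂ → ℝ} (h : ∀ z, 0 ≤ ψ z) (z : ℂ) : 0 ≤ ψ z / z.im ^ 2 :=
  div_nonneg (h z) (sq_nonneg _)

lemma cmp_bd {K : Set ℂ} (hK : IsCompact K) (hKH : K ⊆ HH) : ∃ C : ℝ, 0 < C ∧
    ∀ F : ℂ → ℝ, ContinuousOn F K → (∀ z, 0 ≤ F z) →
      ∫ z in K, F z ≤ C * ∫ z in K, F z / z.im ^ 2 := by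
  have him : ContDiff ℝ ∞ (fun z : ℂ => z.im) := imCLM.contDiff
  obtain ⟨C, hC⟩ := hK.exists_bound_of_continuousOn
    ((him.continuous.pow 2).continuousOn (s := K))
  refine ⟨|C| + 1, by positivity, fun F hF hF0 => ?_⟩
  have i1 : IntegrableOn F K := hF.integrableOn_compact hK
  have i2 : IntegrableOn (fun z => (|C| + 1) * (F z / z.im ^ 2)) K := by
    refine ContinuousOn.integrableOn_compact hK ?_
    refine continuousOn_const.mul (hF.div (him.continuous.pow 2).continuousOn fun z hz => ?_)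
    have : 0 < z.im := hKH hz
    positivity
  rw [← integral_const_mul]
  refine setIntegral_mono_on i1 i2 hK.measurableSet fun z hz => ?_
  have h3 : 0 < z.im := hKH hz
  have h4 : z.im ^ 2 ≤ |C| + 1 := by
    have h7 : ‖z.im ^ 2‖ ≤ C := hC z hz
    rw [Real.norm_eq_abs, abs_of_nonneg (pow_nonneg h3.le 2)] at h7
    linarith [le_abs_self C]
  rw [mul_div_assoc', le_div_iff₀ (pow_pos h3 2), mul_comm]
  exact mul_le_mul_of_nonneg_right h4 (hF0 z)

/-- **Result.** Let `f n`, `g n`, `k n` be real eigenfunctions of the hyperbolic Laplacian on the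
upper half plane with spectral parameters `t n`, `s n`, `u n`, where `t n → ∞`, `s n → ∞`, the `f n`
and the `g n` satisfy microlocal quantum unique ergodicity, the `k n` are bounded in `L²(K, dμ)` for
every compact `K`, `t` and `s` are comparable and `u ≥ δ t` for some `δ > 0`.

1. For every nonnegative test function `ψ` and every `ε > 0`, for all large `n`
`(∫ ψ f g k dμ)² ≤ (1 + ε)/3 √((ex f + ε) (ex g + ε)) ∫ ψ k² dμ + ε √(1 + |ex f| + |ex g|)`, where
`ex f = ∫ ψ f⁴ dμ - 3 ∫ ψ dμ`. If `u²` stays away from `|t² - s²|` (relative to `t²`), the last term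
is `ε`.
2. If `ex f → 0` for every nonnegative test function, and `ex g` is bounded for every nonnegative
test function, then `∫ ψ f g k dμ → 0` for every test function `ψ`. -/
theorem result (t s u : ℕ → ℝ) (ht : Tendsto t atTop atTop) (hs : Tendsto s atTop atTop)
    (f g k : ℕ → ℂ → ℝ) (hf : ∀ n, Eig (t n) (f n)) (hg : ∀ n, Eig (s n) (g n))
    (hk : ∀ n, Eig (u n) (k n)) (hqf : QUE t f) (hqg : QUE s g) (hkb : LocBd k)
    (hc : Comp t s u) :
    (∀ ψ, TF HH ψ → (∀ z, 0 ≤ ψ z) → ∀ ε > 0, (∀ᶠ n in atTop, J ψ (f n) (g n) (k n) ^ 2 ≤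
        (1 + ε) / 3 * √((ex ψ (f n) + ε) * (ex ψ (g n) + ε)) * ms ψ (k n) +
          ε * √(1 + |ex ψ (f n)| + |ex ψ (g n)|)) ∧
      (NR t s u → ∀ᶠ n in atTop, J ψ (f n) (g n) (k n) ^ 2 ≤
        (1 + ε) / 3 * √((ex ψ (f n) + ε) * (ex ψ (g n) + ε)) * ms ψ (k n) + ε)) ∧
    ((∀ φ, TF HH φ → (∀ z, 0 ≤ φ z) → Tendsto (fun n => ex φ (f n)) atTop (𝓝 0)) →
      (∀ φ, TF HH φ → (∀ z, 0 ≤ φ z) → ∃ B : ℝ, ∀ᶠ n in atTop, |ex φ (g n)| ≤ B) →
      ∀ ψ, TF HH ψ → Tendsto (fun n => J ψ (f n) (g n) (k n)) atTop (𝓝 0)) := by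
  have D : FD3 HH t s u f g k := by
    refine ⟨HHo, fun z hz => hz, ht, hs, qs ht hf hqf, qs hs hg hqg, fun n => (hk n).1,
      fun n z hz => ?_, fun K hK hKH => ?_⟩
    · have h1 := (hk n).2 z hz
      show z.im ^ 2 * (dx (dx (k n)) z + dy (dy (k n)) z) + ev (u n) * k n z = 0
      linarith
    · obtain ⟨C, hC⟩ := hkb K hK hKH
      obtain ⟨C', hC'0, hC'⟩ := cmp_bd hK hKH
      refine ⟨C' * C, hC.mono fun n hn => ?_⟩
      exact (hC' (fun z => k n z ^ 2) (((hk n).1.continuousOn.mono hKH).pow 2)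
        (fun z => by positivity)).trans (mul_le_mul_of_nonneg_left hn hC'0.le)
  simp only [J_eq, ex_eq, ms_eq]
  refine ⟨fun ψ hψ h0 ε hε => ⟨?_, fun hr => ?_⟩, fun h1 h2 ψ hψ => ?_⟩
  · exact D.allR hc (tf hψ) (nn h0) hε
  · exact D.allD hc hr (tf hψ) (nn h0) hε
  · have e : ∀ φ : ℂ → ℝ, TF HH φ → ∃ φ', TF HH φ' ∧ (fun z => φ' z / z.im ^ 2) = φ ∧
        ((∀ z, 0 ≤ φ z) → ∀ z, 0 ≤ φ' z) := by
      intro φ hφ
      have sy : ContDiffOn ℝ ∞ (fun z : ℂ => z.im ^ 2) HH := (imCLM.contDiff.pow 2).contDiffOn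
      refine ⟨fun z => φ z * z.im ^ 2, Pool.Agent.TH294.RS.TF.mulc HHo hφ sy, ?_, fun h z =>
        mul_nonneg (h z) (sq_nonneg _)⟩
      funext z
      by_cases hz : z ∈ HH
      · have : 0 < z.im := hz
        field_simp
      · have h0 : φ z = 0 := image_eq_zero_of_notMem_tsupport fun h => hz (hφ.2.2 h)
        simp [h0]
    refine D.van hc (fun φ hφ h0 => ?_) (fun φ hφ h0 => ?_) (tf hψ)
    · obtain ⟨φ', a1, a2, a3⟩ := e φ hφ
      have := h1 φ' a1 (a3 h0)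
      rwa [a2] at this
    · obtain ⟨φ', a1, a2, a3⟩ := e φ hφ
      have := h2 φ' a1 (a3 h0)
      rwa [a2] at this

end Pool.Agent.Results.MP_a28cf0_nt.JointCubicDegenerate
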