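import Pool.Agent.K13.TP.Fin

/-!
# The joint moment `∫ ψ f g k dμ` of three eigenfunctions (MP_a28cf0_nt)

The plane is `ℂ`, with the upper half plane `HH` and `dμ = dx dy / y²`. `dx f z`, `dy f z` are the
partial derivatives `fderiv ℝ f z 1`, `fderiv ℝ f z I`; `TF U φ` says that `φ : ℂ → ℝ` is smooth
with compact support contained in `U`.

The main consequence: for three quantum ergodic sequences of eigenfunctions (for Hecke-Maass cusp
forms the hypothesis `QUE` is a theorem of Lindenstrauss and Soundararajan) `∫ ψ f g k dμ → 0` for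
every test function `ψ`, unless the spectral parameters approach a degenerate triangle or the two
smaller ones have different orders of magnitude. No assumption is made on the fourth moments.
This is the conjecture for `I = 3`, `a = (1, 1, 1)` in this range of spectral parameters.

Proof. `L` is the Laplacian divided by the eigenvalue `λ` of `f`, `ρ² = μ / λ` the ratio of the
eigenvalues of `g` and `f`. For every polynomial `F`, `F(L) (f g)` is, up to `O(λ^{-1/2})` errors,
a quadratic expression in the ladders `f_m = RO^m f`, `g_m` with the Laurent polynomial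
`F(1 + ρ² + ρ (τ + τ⁻¹))` as symbol (`Pool.Agent.K13.TP.Good`). Its mean square is a sum of the joint
four-point functions of the ladders, which satisfy asymptotically the relations of four plane waves
with vanishing total momentum and vanishing null form (`Pool.Agent.K13.TP.Mom`). In the ring defined
by these relations, for `F(Y) = (Y² - 2 (1 + ρ²) Y + (ρ² - 1)²) (Y² - (ρ² - 1)²) H(Y)`, the product
of the two symbols becomes a product of a symbol in the waves of `f` and of a symbol in the waves of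
`g`, both of which vanish at `τ = ± 1` (`Pool.Agent.K13.TP.Sym`). By the Cauchy-Schwarz inequality
the mean square is then bounded by the mean squares of expressions in one ladder, which do not
involve the fourth moments (`Pool.Agent.K13.TP.Sq`, `Pool.Agent.K13.TP.Sqb`). Finally `H` is chosen
such that `F = 1` at the ratio `r` of the eigenvalues of `k` and `f` and all mean squares are small
(`Pool.Agent.K13.TP.Poly`), and `F(r) ∫ ψ f g k dμ = ∫ ψ (F(L) (f g)) k dμ + o(1)`
(`Pool.Agent.K13.TP.Pair`).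
-/

set_option autoImplicit false
open MeasureTheory Filter Topology Complex
open scoped ContDiff

namespace Pool.Agent.Results.MP_a28cf0_nt.JointCubicTriple

open Pool.Agent.W745.RW (TF dx dy lap)
open Pool.Agent.K13.TP (J3 fin1 fin2 qs_bd)

/-- the open upper half plane -/
def HH : Set ℂ := {z | 0 < z.im}

/-- the eigenvalue `1/4 + t²` -/
noncomputable def ev (t : ℝ) : ℝ := 1 / 4 + t ^ 2

/-- `f` is a smooth real solution of `-y² (∂x² + ∂y²) f = (1/4 + t²) f` on the upper half plane -/
def Eig (t : ℝ) (f : ℂ → ℝ) : Prop :=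
  ContDiffOn ℝ ∞ f HH ∧ ∀ z ∈ HH, -(z.im ^ 2 * (dx (dx f) z + dy (dy f) z)) = ev t * f z

/-- the operator `f ↦ lam^{-1/2} y (∂x f - i ∂y f)` -/
noncomputable def RO (lam : ℝ) (f : ℂ → ℂ) (z : ℂ) : ℂ :=
  ((z.im / √lam : ℝ) : ℂ) * (dx f z - I * dy f z)

/-- quantum unique ergodicity in microlocal form: `∫ φ f (RO^k f) dμ → ∫ φ dμ` for `k = 0`, and
`→ 0` for `k ≥ 1` -/
def QUE (t : ℕ → ℝ) (f : ℕ → ℂ → ℝ) : Prop :=
  ∀ φ, TF HH φ → ∀ k : ℕ, Tendsto (fun n => ∫ z, ((φ z / z.im ^ 2 : ℝ) : ℂ) *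
    ((f n z : ℂ) * (RO (ev (t n)))^[k] (fun w => (f n w : ℂ)) z)) atTop
    (𝓝 (if k = 0 then ((∫ z, φ z / z.im ^ 2 : ℝ) : ℂ) else 0))

/-- the joint moment `∫ ψ f g k dμ` -/
noncomputable def J (ψ f g k : ℂ → ℝ) : ℝ := ∫ z, ψ z * (f z * g z * k z) / z.im ^ 2

/-- the functions are bounded in `L²(K, dμ)` for every compact set `K` -/
def LocBd (k : ℕ → ℂ → ℝ) : Prop := ∀ K : Set ℂ, IsCompact K → K ⊆ HH →
  ∃ C : ℝ, ∀ᶠ n in atTop, ∫ z in K, k n z ^ 2 / z.im ^ 2 ≤ C

/-- `t` and `s` are comparable, and `u / t` stays away from `1 ± s / t` and from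
`|1 - (s / t)²|^{1/2}` (that is, `u²` stays away from `(t ± s)²` and `|t² - s²|`, relative to
`t²`) -/
def Away (t s u : ℕ → ℝ) : Prop := ∃ δ : ℝ, 0 < δ ∧ ∀ᶠ n in atTop,
  δ * t n ≤ s n ∧ δ * s n ≤ t n ∧ δ * t n ^ 2 ≤ |u n ^ 2 - (t n + s n) ^ 2| ∧
  δ * t n ^ 2 ≤ |u n ^ 2 - (t n - s n) ^ 2| ∧ δ * t n ^ 2 ≤ |u n ^ 2 - abs (t n ^ 2 - s n ^ 2)|

/-- if `c` is the largest of the three numbers, then the other two are comparable and `c` is not
close to their sum -/
def Adm (δ a b c : ℝ) : Prop :=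
  a ≤ c → b ≤ c → δ * a ≤ b ∧ δ * b ≤ a ∧ δ * c ≤ |c - (a + b)|

/-- the two smaller of the three parameters are comparable and the largest one is not close to the
sum of the others -/
def NonDeg (t s u : ℕ → ℝ) : Prop := ∃ δ : ℝ, 0 < δ ∧ ∀ᶠ n in atTop,
  Adm δ (t n) (s n) (u n) ∧ Adm δ (s n) (u n) (t n) ∧ Adm δ (u n) (t n) (s n)

lemma ev_pos (t : ℝ) : 0 < ev t := by unfold ev; positivity

lemma HHo : IsOpen HH := isOpen_lt continuous_const continuous_im

lemma qs {t : ℕ → ℝ} (ht : Tendsto t atTop atTop) {f : ℕ → ℂ → ℝ}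
    (hf : ∀ n, Eig (t n) (f n)) (hqe : QUE t f) :
    Pool.Agent.R314.JN.QS HH (fun n => Pool.Agent.K13.TP.evv (t n)) f := by
  refine ⟨fun n => ev_pos (t n), Pool.Agent.K13.TP.evv_top ht, fun n => (hf n).1,
    fun n z hz => ?_, hqe⟩
  have h1 := (hf n).2 z hz
  show z.im ^ 2 * (dx (dx (f n)) z + dy (dy (f n)) z) + ev (t n) * f n z = 0
  linarith

lemma tf {ψ : ℂ → ℝ} (hψ : TF HH ψ) : TF HH (fun z => ψ z / z.im ^ 2) := by
  have sy : ContDiffOn ℝ ∞ (fun z : ℂ => (z.im ^ 2)⁻¹) HH := by
    refine ContDiffOn.inv ((imCLM.contDiff.pow 2).contDiffOn) fun z hz => ?_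
    have : 0 < z.im := hz
    exact pow_ne_zero 2 this.ne'
  exact Pool.Agent.TH294.RS.TF.mulc HHo hψ sy

lemma J_eq (ψ f g k : ℂ → ℝ) : J ψ f g k = J3 (fun z => ψ z / z.im ^ 2) f g k := by
  unfold J J3
  congr 1; funext z; ring

lemma cmp_bd {K : Set ℂ} (hK : IsCompact K) (hKH : K ⊆ HH) : ∃ C : ℝ, 0 < C ∧
    ∀ F : ℂ → ℝ, ContinuousOn F K → (∀ z, 0 ≤ F z) →
      ∫ z in K, F z ≤ C * ∫ z in K, F z / z.im ^ 2 := by
  have him : ContDiff ℝ ∞ (fun z : ℂ => z.im) := imCLM.contDiff
  obtain ⟨C, hC⟩ := hK.exists_bound_of_continuousOn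
    ((him.continuous.pow 2).continuousOn (s := K))
  refine ⟨|C| + 1, by positivity, fun F hF hF0 => ?_⟩
  have i1 : IntegrableOn F K := hF.integrableOn_compact hK
  have i2 : IntegrableOn (fun z => (|C| + 1) * (F z / z.im ^ 2)) K := by
    refine ContinuousOn.integrableOn_compact hK ?_
    refine continuousOn_const.mul (hF.div (him.continuous.pow 2).continuousOn fun z hz => ?_)
    have : 0 < z.im := hKH hz
    positivity
  rw [← integral_const_mul]
  refine setIntegral_mono_on i1 i2 hK.measurableSet fun z hz => ?_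
  have h3 : 0 < z.im := hKH hz
  have h4 : z.im ^ 2 ≤ |C| + 1 := by
    have h7 : ‖z.im ^ 2‖ ≤ C := hC z hz
    rw [Real.norm_eq_abs, abs_of_nonneg (pow_nonneg h3.le 2)] at h7
    linarith [le_abs_self C]
  rw [mul_div_assoc', le_div_iff₀ (pow_pos h3 2), mul_comm]
  exact mul_le_mul_of_nonneg_right h4 (hF0 z)

/-- **Result.** Let `f n`, `g n`, `k n` be real eigenfunctions of the hyperbolic Laplacian on the
upper half plane with spectral parameters `t n`, `s n`, `u n`.

1. If `t n → ∞`, `s n → ∞`, the `f n` and the `g n` satisfy microlocal quantum unique ergodicity, the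
`k n` are bounded in `L²(K, dμ)` for every compact `K`, `t` and `s` are comparable and `u²` stays
away from `(t ± s)²` and `|t² - s²|` (relative to `t²`), then `∫ ψ f g k dμ → 0` for every test
function `ψ`.
2. If all three parameters tend to `∞`, all three sequences satisfy microlocal quantum unique
ergodicity, the two smaller parameters are comparable and the largest one is not close to their sum,
then `∫ ψ f g k dμ → 0` for every test function `ψ`. -/
theorem result (t s u : ℕ → ℝ) (ht : Tendsto t atTop atTop) (hs : Tendsto s atTop atTop)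
    (f g k : ℕ → ℂ → ℝ) (hf : ∀ n, Eig (t n) (f n)) (hg : ∀ n, Eig (s n) (g n))
    (hk : ∀ n, Eig (u n) (k n)) (hqf : QUE t f) (hqg : QUE s g) :
    (LocBd k → Away t s u → ∀ ψ, TF HH ψ →
      Tendsto (fun n => J ψ (f n) (g n) (k n)) atTop (𝓝 0)) ∧
    (Tendsto u atTop atTop → QUE u k → NonDeg t s u → ∀ ψ, TF HH ψ →
      Tendsto (fun n => J ψ (f n) (g n) (k n)) atTop (𝓝 0)) := by
  simp only [J_eq]
  constructor
  · intro hkb hA ψ hψ
    refine fin1 (u := u) HHo (fun z hz => hz) ht hs (qs ht hf hqf) (qs hs hg hqg)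
      (fun n => (hk n).1)
      (fun n z hz => ?_) (fun K hK hKH => ?_) hA (tf hψ)
    · have h1 := (hk n).2 z hz
      show z.im ^ 2 * (dx (dx (k n)) z + dy (dy (k n)) z) + ev (u n) * k n z = 0
      linarith
    · obtain ⟨C, hC⟩ := hkb K hK hKH
      obtain ⟨C', hC'0, hC'⟩ := cmp_bd hK hKH
      refine ⟨C' * C, hC.mono fun n hn => ?_⟩
      exact (hC' (fun z => k n z ^ 2) (((hk n).1.continuousOn.mono hKH).pow 2)
        (fun z => by positivity)).trans (mul_le_mul_of_nonneg_left hn hC'0.le)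
  · intro hu hqk hA ψ hψ
    exact fin2 HHo (fun z hz => hz) ht hs hu (qs ht hf hqf) (qs hs hg hqg) (qs hu hk hqk) hA
      (tf hψ)

end Pool.Agent.Results.MP_a28cf0_nt.JointCubicTriple
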