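import Pool.Agent.H25JM.Fin

/-!
# An unconditional lower bound for the joint fourth moment (MP_a28cf0_nt)

The plane is `ℂ`, with the upper half plane `HH` and `dμ = dx dy / y²`. `dx f z`, `dy f z` are the
partial derivatives `fderiv ℝ f z 1`, `fderiv ℝ f z I`; `TF U φ` says that `φ : ℂ → ℝ` is smooth
with compact support contained in `U`.

For two quantum ergodic sequences of eigenfunctions (for Hecke-Maass cusp forms the hypothesis `QUE`
is a theorem of Lindenstrauss and Soundararajan) whose spectral parameters have a ratio tending to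
`k ∈ (0, 1)`, `liminf ∫ ψ f² g² dμ ≥ (1 - d(k)) ∫ ψ dμ`, with an explicit `d(k) < 0.83` which tends
to `0` for `k → 0` and for `k → 1`. No assumption is made on the fourth moments of `f` and `g`.
The conjecture is that the limit is `∫ ψ dμ`.

Proof. The joint four-point functions of the ladders `RO^m f`, `RO^m g` are, up to `o(1)`, functions
`F(i, j)` of two variables (`Pool.Agent.H25JM.Red`) which satisfy one relation; so they are given by
a functional on the ring of Laurent polynomials modulo one relation, the curve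
`x = cos θ`, `y = cos θ'`, `x + y = - 2 k s`, `x y = (1 + k²) s - 1`. A mixed expression
`∑ e_m RO^m f · conj (RO^m g)` has a nonnegative mean square, and the correlation of a quadratic
expression in `f` and one in `g` is bounded by the Cauchy-Schwarz inequality by mean squares which
do not involve the fourth moments if the symbols vanish at `0` and `4`. If
`e(x)² + e(y)² + 2 ∑ b_i(4 k² s) c_i(4 s) = 2` this gives a lower bound of `∫ ψ f² g² dμ`
(`Pool.Agent.H25JM.Lowb`). The polynomials are found by approximation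
(`Pool.Agent.H25JM.Pol`, `App`) of explicit continuous functions (`Tg`), whose cost is computed in
`Pool.Agent.H25JM.Cost`.
-/

set_option autoImplicit false
open MeasureTheory Filter Topology Complex
open scoped ContDiff

namespace Pool.Agent.Results.MP_a28cf0_nt.JointFourthMomentLowerBound

open Pool.Agent.W745.RW (TF dx dy)

/-- the open upper half plane -/
def HH : Set ℂ := {z | 0 < z.im}

/-- the eigenvalue `1/4 + t²` -/
noncomputable def ev (t : ℝ) : ℝ := 1 / 4 + t ^ 2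

/-- `f` is a smooth real solution of `-y² (∂x² + ∂y²) f = (1/4 + t²) f` on the upper half plane -/
def Eig (t : ℝ) (f : ℂ → ℝ) : Prop :=
  ContDiffOn ℝ ∞ f HH ∧ ∀ z ∈ HH, -(z.im ^ 2 * (dx (dx f) z + dy (dy f) z)) = ev t * f z

/-- the operator `f ↦ lam^{-1/2} y (∂x f - i ∂y f)` -/
noncomputable def RO (lam : ℝ) (f : ℂ → ℂ) (z : ℂ) : ℂ :=
  ((z.im / √lam : ℝ) : ℂ) * (dx f z - I * dy f z)

/-- quantum unique ergodicity in microlocal form: `∫ φ f (RO^k f) dμ → ∫ φ dμ` for `k = 0`, and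
`→ 0` for `k ≥ 1` -/
def QUE (t : ℕ → ℝ) (f : ℕ → ℂ → ℝ) : Prop :=
  ∀ φ, TF HH φ → ∀ k : ℕ, Tendsto (fun n => ∫ z, ((φ z / z.im ^ 2 : ℝ) : ℂ) *
    ((f n z : ℂ) * (RO (ev (t n)))^[k] (fun w => (f n w : ℂ)) z)) atTop
    (𝓝 (if k = 0 then ((∫ z, φ z / z.im ^ 2 : ℝ) : ℂ) else 0))

/-- the integral `∫ ψ F dμ` -/
noncomputable def II (ψ F : ℂ → ℝ) : ℝ := ∫ z, ψ z * F z / z.im ^ 2

/-- the function `r(v) = k sin v / √(1 - k² cos² v)` -/
noncomputable def rr (k v : ℝ) : ℝ := k * Real.sin v / √(1 - k ^ 2 * Real.cos v ^ 2)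

/-- the constant `d(k) = (2/π) ∫_0^{π/2} min (1 - r(v)) (2 √(r(v))) dv` -/
noncomputable def dd (k : ℝ) : ℝ :=
  2 / Real.pi * ∫ v in (0 : ℝ)..(Real.pi / 2), min (1 - rr k v) (2 * √(rr k v))

lemma ev_pos (t : ℝ) : 0 < ev t := by unfold ev; positivity

lemma HHo : IsOpen HH := isOpen_lt continuous_const continuous_im

lemma ev_top {t : ℕ → ℝ} (ht : Tendsto t atTop atTop) :
    Tendsto (fun n => ev (t n)) atTop atTop :=
  tendsto_atTop_add_const_left _ _ ((tendsto_pow_atTop two_ne_zero).comp ht)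

lemma qs {t : ℕ → ℝ} (ht : Tendsto t atTop atTop) {f : ℕ → ℂ → ℝ}
    (hf : ∀ n, Eig (t n) (f n)) (hqe : QUE t f) :
    Pool.Agent.R314.JN.QS HH (fun n => ev (t n)) f := by
  refine ⟨fun n => ev_pos (t n), ev_top ht, fun n => (hf n).1, fun n z hz => ?_, hqe⟩
  have h1 := (hf n).2 z hz
  show z.im ^ 2 * (dx (dx (f n)) z + dy (dy (f n)) z) + ev (t n) * f n z = 0
  linarith

lemma tf {ψ : ℂ → ℝ} (hψ : TF HH ψ) : TF HH (fun z => ψ z / z.im ^ 2) := by
  have sy : ContDiffOn ℝ ∞ (fun z : ℂ => (z.im ^ 2)⁻¹) HH := by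
    refine ContDiffOn.inv ((imCLM.contDiff.pow 2).contDiffOn) fun z hz => ?_
    have : 0 < z.im := hz
    exact pow_ne_zero 2 this.ne'
  exact Pool.Agent.TH294.RS.TF.mulc HHo hψ sy

lemma rat {t s : ℕ → ℝ} (ht : Tendsto t atTop atTop) {k : ℝ} (hk : 0 < k)
    (hr : Tendsto (fun n => s n / t n) atTop (𝓝 k)) :
    Tendsto (Pool.Agent.K13.TP.rh (fun n => ev (t n)) (fun n => ev (s n))) atTop (𝓝 k) := by
  have i2 : Tendsto (fun n => (t n)⁻¹ ^ 2) atTop (𝓝 0) := by
    have := ht.inv_tendsto_atTop.pow 2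
    rw [zero_pow two_ne_zero] at this
    exact this
  have h1 : Tendsto (fun n => (1 / 4 * (t n)⁻¹ ^ 2 + (s n / t n) ^ 2) /
      (1 / 4 * (t n)⁻¹ ^ 2 + 1)) atTop (𝓝 ((1 / 4 * 0 + k ^ 2) / (1 / 4 * 0 + 1))) :=
    ((i2.const_mul _).add (hr.pow 2)).div ((i2.const_mul _).add_const 1) (by norm_num)
  have h2 := (Real.continuous_sqrt.tendsto _).comp h1
  have e0 : √((1 / 4 * 0 + k ^ 2) / (1 / 4 * 0 + 1)) = k := by
    rw [show (1 / 4 * 0 + k ^ 2) / (1 / 4 * 0 + 1) = k ^ 2 by ring, Real.sqrt_sq hk.le]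
  rw [e0] at h2
  refine h2.congr' ?_
  filter_upwards [ht.eventually_gt_atTop 0] with n hn
  have e1 := ev_pos (t n)
  have e2 := ev_pos (s n)
  have e3 : (1 / 4 * (t n)⁻¹ ^ 2 + (s n / t n) ^ 2) / (1 / 4 * (t n)⁻¹ ^ 2 + 1) =
      ev (s n) / ev (t n) := by
    unfold ev
    field_simp
  show √((1 / 4 * (t n)⁻¹ ^ 2 + (s n / t n) ^ 2) / (1 / 4 * (t n)⁻¹ ^ 2 + 1)) =
    1 / √(ev (t n)) / (1 / √(ev (s n)))
  rw [e3, Real.sqrt_div e2.le]
  have p1 := Real.sqrt_pos.2 e1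
  have p2 := Real.sqrt_pos.2 e2
  field_simp

/-- **Result.** Let `f n`, `g n` be real eigenfunctions of the hyperbolic Laplacian on the upper
half plane with spectral parameters `t n, s n → ∞` and `s n / t n → k` with `0 < k < 1`, both
satisfying microlocal quantum unique ergodicity, and let `ψ ≥ 0` be a test function.

1. For every `ε > 0`, for all large `n`, `∫ ψ f² g² dμ ≥ (1 - d(k)) ∫ ψ dμ - ε`, where
`d(k) = (2/π) ∫_0^{π/2} min (1 - r(v)) (2 √(r(v))) dv`, `r(v) = k sin v / √(1 - k² cos² v)`.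
2. `1 - d(k)` is at least `(2/π) arcsin k`, `1 - 2 √k` and `3 - 2 √2`. -/
theorem result (t s : ℕ → ℝ) (ht : Tendsto t atTop atTop) (hs : Tendsto s atTop atTop)
    (f g : ℕ → ℂ → ℝ) (hf : ∀ n, Eig (t n) (f n)) (hg : ∀ n, Eig (s n) (g n))
    (hqf : QUE t f) (hqg : QUE s g) (k : ℝ) (hk0 : 0 < k) (hk1 : k < 1)
    (hr : Tendsto (fun n => s n / t n) atTop (𝓝 k)) (ψ : ℂ → ℝ) (hψ : TF HH ψ)
    (h0 : ∀ z, 0 ≤ ψ z) :
    (∀ ε > 0, ∀ᶠ n in atTop,
      (1 - dd k) * II ψ (fun _ => 1) - ε ≤ II ψ (fun z => f n z ^ 2 * g n z ^ 2)) ∧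
    2 / Real.pi * Real.arcsin k ≤ 1 - dd k ∧ 1 - 2 * √k ≤ 1 - dd k ∧
    3 - 2 * √2 ≤ 1 - dd k := by
  refine ⟨fun ε hε => ?_, Pool.Agent.H25JM.dk_1 hk0 hk1, Pool.Agent.H25JM.dk_2 hk0 hk1,
    Pool.Agent.H25JM.dk_3 hk0 hk1⟩
  have key := Pool.Agent.H25JM.low22 HHo (fun z hz => hz) (qs ht hf hqf) (qs hs hg hqg) (tf hψ)
    (fun z => div_nonneg (h0 z) (sq_nonneg _)) hk0 hk1 (rat ht hk0 hr) hε
  have e1 : ∫ z, ψ z / z.im ^ 2 = II ψ (fun _ => 1) := by
    unfold II
    simp only [mul_one]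
  filter_upwards [key] with n hn
  rw [e1] at hn
  have e3 : ∫ z, ψ z / z.im ^ 2 * (f n z ^ 2 * g n z ^ 2) =
      II ψ (fun z => f n z ^ 2 * g n z ^ 2) := by
    unfold II
    congr 1; funext z; ring
  rw [e3] at hn
  exact hn

end Pool.Agent.Results.MP_a28cf0_nt.JointFourthMomentLowerBound
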