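import Pool.Agent.H25JM.UFin

/-!
# An upper bound for the joint fourth moment (MP_a28cf0_nt)

The plane is `ℂ`, with the upper half plane `HH` and `dμ = dx dy / y²`. `dx f z`, `dy f z` are the
partial derivatives `fderiv ℝ f z 1`, `fderiv ℝ f z I`; `TF U φ` says that `φ : ℂ → ℝ` is smooth
with compact support contained in `U`.

For two quantum ergodic sequences of eigenfunctions (for Hecke-Maass cusp forms the hypothesis `QUE`
is a theorem of Lindenstrauss and Soundararajan) whose spectral parameters have a ratio tending to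
`k ∈ (0, 1)`, `∫ ψ f² g² dμ` is at most `(1 + d(k)) ∫ ψ dμ + (2/3) √(ex f · ex g)`, up to small
terms, with an explicit `d(k) < 0.83` which tends to `0` for `k → 0` and for `k → 1`; `ex f` is the
excess of the fourth moment of `f` over the Gaussian value. The conjecture is that the limit is
`∫ ψ dμ`.

Proof. The notation is that of `JointFourthMomentLowerBound`. An odd mixed expression
`∑ e_m RO^m f · conj (RO^m g)`, `e_{-m} = - e_m`, is purely imaginary, so its square has a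
nonpositive mean; this bounds the functional `L` of the joint four-point functions from above:
`L((1 - x²) U(x)²) ≤ (2π)⁻¹ ∫ sin²θ U(cos θ)² dθ ∫ ψ dμ` (`Pool.Agent.H25JM.Cor2`). The correlation
of a quadratic expression in `f` and one in `g` is bounded by their variances, which are
`2 gp(b) ∫ ψ dμ + ex f · (2/3 b(0)² + 1/3 b(4)²)` (`Pool.Agent.H25JM.Ms`). The constant is
decomposed into `(1 - x²) U(x)²`, a product of two symbols which vanish at `0` and `4`, a product of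
two symbols with small mean square and value `1` at `0`, `0` at `4`, and a small remainder
(`Pool.Agent.H25JM.UApp`, `UTg`, `UCost`).
-/

set_option autoImplicit false
open MeasureTheory Filter Topology Complex
open scoped ContDiff

namespace Pool.Agent.Results.MP_a28cf0_nt.JointFourthMomentUpperBound

open Pool.Agent.W745.RW (TF dx dy)

/-- the open upper half plane -/
def HH : Set ℂ := {z | 0 < z.im}

/-- the eigenvalue `1/4 + t²` -/
noncomputable def ev (t : ℝ) : ℝ := 1 / 4 + t ^ 2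

/-- `f` is a smooth real solution of `-y² (∂x² + ∂y²) f = (1/4 + t²) f` on the upper half plane -/
def Eig (t : ℝ) (f : ℂ → ℝ) : Prop :=
  ContDiffOn ℝ ∞ f HH ∧ ∀ z ∈ HH, -(z.im ^ 2 * (dx (dx f) z + dy (dy f) z)) = ev t * f z

/-- the operator `f ↦ lam^{-1/2} y (∂x f - i ∂y f)` -/
noncomputable def RO (lam : ℝ) (f : ℂ → ℂ) (z : ℂ) : ℂ :=
  ((z.im / √lam : ℝ) : ℂ) * (dx f z - I * dy f z)

/-- quantum unique ergodicity in microlocal form: `∫ φ f (RO^k f) dμ → ∫ φ dμ` for `k = 0`, and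
`→ 0` for `k ≥ 1` -/
def QUE (t : ℕ → ℝ) (f : ℕ → ℂ → ℝ) : Prop :=
  ∀ φ, TF HH φ → ∀ k : ℕ, Tendsto (fun n => ∫ z, ((φ z / z.im ^ 2 : ℝ) : ℂ) *
    ((f n z : ℂ) * (RO (ev (t n)))^[k] (fun w => (f n w : ℂ)) z)) atTop
    (𝓝 (if k = 0 then ((∫ z, φ z / z.im ^ 2 : ℝ) : ℂ) else 0))

/-- the integral `∫ ψ F dμ` -/
noncomputable def II (ψ F : ℂ → ℝ) : ℝ := ∫ z, ψ z * F z / z.im ^ 2

/-- the function `r(v) = k sin v / √(1 - k² cos² v)` -/
noncomputable def rr (k v : ℝ) : ℝ := k * Real.sin v / √(1 - k ^ 2 * Real.cos v ^ 2)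

/-- the constant `d(k) = (2/π) ∫_0^{π/2} min (1 - r(v)) (2 √(r(v))) dv` -/
noncomputable def dd (k : ℝ) : ℝ :=
  2 / Real.pi * ∫ v in (0 : ℝ)..(Real.pi / 2), min (1 - rr k v) (2 * √(rr k v))

/-- the excess `∫ ψ f⁴ dμ - 3 ∫ ψ dμ` of the fourth moment over its Gaussian value -/
noncomputable def ex (ψ f : ℂ → ℝ) : ℝ := II ψ (fun z => f z ^ 4) - 3 * II ψ (fun _ => 1)

lemma ev_pos (t : ℝ) : 0 < ev t := by unfold ev; positivity

lemma HHo : IsOpen HH := isOpen_lt continuous_const continuous_im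

lemma ev_top {t : ℕ → ℝ} (ht : Tendsto t atTop atTop) :
    Tendsto (fun n => ev (t n)) atTop atTop :=
  tendsto_atTop_add_const_left _ _ ((tendsto_pow_atTop two_ne_zero).comp ht)

lemma qs {t : ℕ → ℝ} (ht : Tendsto t atTop atTop) {f : ℕ → ℂ → ℝ}
    (hf : ∀ n, Eig (t n) (f n)) (hqe : QUE t f) :
    Pool.Agent.R314.JN.QS HH (fun n => ev (t n)) f := by
  refine ⟨fun n => ev_pos (t n), ev_top ht, fun n => (hf n).1, fun n z hz => ?_, hqe⟩
  have h1 := (hf n).2 z hz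
  show z.im ^ 2 * (dx (dx (f n)) z + dy (dy (f n)) z) + ev (t n) * f n z = 0
  linarith

lemma tf {ψ : ℂ → ℝ} (hψ : TF HH ψ) : TF HH (fun z => ψ z / z.im ^ 2) := by
  have sy : ContDiffOn ℝ ∞ (fun z : ℂ => (z.im ^ 2)⁻¹) HH := by
    refine ContDiffOn.inv ((imCLM.contDiff.pow 2).contDiffOn) fun z hz => ?_
    have : 0 < z.im := hz
    exact pow_ne_zero 2 this.ne'
  exact Pool.Agent.TH294.RS.TF.mulc HHo hψ sy

lemma rat {t s : ℕ → ℝ} (ht : Tendsto t atTop atTop) {k : ℝ} (hk : 0 < k)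
    (hr : Tendsto (fun n => s n / t n) atTop (𝓝 k)) :
    Tendsto (Pool.Agent.K13.TP.rh (fun n => ev (t n)) (fun n => ev (s n))) atTop (𝓝 k) := by
  have i2 : Tendsto (fun n => (t n)⁻¹ ^ 2) atTop (𝓝 0) := by
    have := ht.inv_tendsto_atTop.pow 2
    rw [zero_pow two_ne_zero] at this
    exact this
  have h1 : Tendsto (fun n => (1 / 4 * (t n)⁻¹ ^ 2 + (s n / t n) ^ 2) /
      (1 / 4 * (t n)⁻¹ ^ 2 + 1)) atTop (𝓝 ((1 / 4 * 0 + k ^ 2) / (1 / 4 * 0 + 1))) :=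
    ((i2.const_mul _).add (hr.pow 2)).div ((i2.const_mul _).add_const 1) (by norm_num)
  have h2 := (Real.continuous_sqrt.tendsto _).comp h1
  have e0 : √((1 / 4 * 0 + k ^ 2) / (1 / 4 * 0 + 1)) = k := by
    rw [show (1 / 4 * 0 + k ^ 2) / (1 / 4 * 0 + 1) = k ^ 2 by ring, Real.sqrt_sq hk.le]
  rw [e0] at h2
  refine h2.congr' ?_
  filter_upwards [ht.eventually_gt_atTop 0] with n hn
  have e1 := ev_pos (t n)
  have e2 := ev_pos (s n)
  have e3 : (1 / 4 * (t n)⁻¹ ^ 2 + (s n / t n) ^ 2) / (1 / 4 * (t n)⁻¹ ^ 2 + 1) =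
      ev (s n) / ev (t n) := by
    unfold ev
    field_simp
  show √((1 / 4 * (t n)⁻¹ ^ 2 + (s n / t n) ^ 2) / (1 / 4 * (t n)⁻¹ ^ 2 + 1)) =
    1 / √(ev (t n)) / (1 / √(ev (s n)))
  rw [e3, Real.sqrt_div e2.le]
  have p1 := Real.sqrt_pos.2 e1
  have p2 := Real.sqrt_pos.2 e2
  field_simp

/-- **Result.** Let `f n`, `g n` be real eigenfunctions of the hyperbolic Laplacian on the upper
half plane with spectral parameters `t n, s n → ∞` and `s n / t n → k` with `0 < k < 1`, both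
satisfying microlocal quantum unique ergodicity, and let `ψ ≥ 0` be a test function. Let
`d(k) = (2/π) ∫_0^{π/2} min (1 - r(v)) (2 √(r(v))) dv`, `r(v) = k sin v / √(1 - k² cos² v)`.

1. For every `ε > 0`, for all large `n`, `∫ ψ f² g² dμ` is at most
`(1 + d(k)) ∫ ψ dμ + (2/3) √((ex f + ε) (ex g + ε)) + ε √((1 + ∫ ψ f⁴ dμ) (1 + ∫ ψ g⁴ dμ))`.
2. If the fourth moments `∫ ψ f⁴ dμ`, `∫ ψ g⁴ dμ` are bounded and `ex f · ex g → 0` then
`limsup ∫ ψ f² g² dμ ≤ (1 + d(k)) ∫ ψ dμ`.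
3. `d(k)` is at most `1 - (2/π) arcsin k`, `2 √k` and `2 √2 - 2`. -/
theorem result (t s : ℕ → ℝ) (ht : Tendsto t atTop atTop) (hs : Tendsto s atTop atTop)
    (f g : ℕ → ℂ → ℝ) (hf : ∀ n, Eig (t n) (f n)) (hg : ∀ n, Eig (s n) (g n))
    (hqf : QUE t f) (hqg : QUE s g) (k : ℝ) (hk0 : 0 < k) (hk1 : k < 1)
    (hr : Tendsto (fun n => s n / t n) atTop (𝓝 k)) (ψ : ℂ → ℝ) (hψ : TF HH ψ)
    (h0 : ∀ z, 0 ≤ ψ z) :
    (∀ ε > 0, ∀ᶠ n in atTop, II ψ (fun z => f n z ^ 2 * g n z ^ 2) ≤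
      (1 + dd k) * II ψ (fun _ => 1) + 2 / 3 * √((ex ψ (f n) + ε) * (ex ψ (g n) + ε)) +
        ε * √((1 + II ψ (fun z => f n z ^ 4)) * (1 + II ψ (fun z => g n z ^ 4)))) ∧
    ((∃ A : ℝ, ∀ᶠ n in atTop, II ψ (fun z => f n z ^ 4) ≤ A ∧ II ψ (fun z => g n z ^ 4) ≤ A) →
      Tendsto (fun n => ex ψ (f n) * ex ψ (g n)) atTop (𝓝 0) →
      ∀ ε > 0, ∀ᶠ n in atTop,
        II ψ (fun z => f n z ^ 2 * g n z ^ 2) ≤ (1 + dd k) * II ψ (fun _ => 1) + ε) ∧
    dd k ≤ 1 - 2 / Real.pi * Real.arcsin k ∧ dd k ≤ 2 * √k ∧ dd k ≤ 2 * √2 - 2 := by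
  have d1 : 2 / Real.pi * Real.arcsin k ≤ 1 - dd k := Pool.Agent.H25JM.dk_1 hk0 hk1
  have d2 : 1 - 2 * √k ≤ 1 - dd k := Pool.Agent.H25JM.dk_2 hk0 hk1
  have d3 : 3 - 2 * √2 ≤ 1 - dd k := Pool.Agent.H25JM.dk_3 hk0 hk1
  have main : ∀ ε > 0, ∀ᶠ n in atTop, II ψ (fun z => f n z ^ 2 * g n z ^ 2) ≤
      (1 + dd k) * II ψ (fun _ => 1) + 2 / 3 * √((ex ψ (f n) + ε) * (ex ψ (g n) + ε)) +
        ε * √((1 + II ψ (fun z => f n z ^ 4)) * (1 + II ψ (fun z => g n z ^ 4))) := by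
    intro ε hε
    have key := Pool.Agent.H25JM.up22 HHo (fun z hz => hz) (qs ht hf hqf) (qs hs hg hqg) (tf hψ)
      (fun z => div_nonneg (h0 z) (sq_nonneg _)) hk0 hk1 (rat ht hk0 hr) hε
    have e1 : ∫ z, ψ z / z.im ^ 2 = II ψ (fun _ => 1) := by
      unfold II
      simp only [mul_one]
    have e2 : ∀ u : ℂ → ℝ, ∫ z, ψ z / z.im ^ 2 * u z ^ 4 = II ψ (fun z => u z ^ 4) := by
      intro u
      unfold II
      congr 1; funext z; ring
    have e4 : ∀ u : ℂ → ℝ, Pool.Agent.H25JM.xx (fun z => ψ z / z.im ^ 2) u = ex ψ u := by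
      intro u
      unfold Pool.Agent.H25JM.xx ex
      rw [e2, e1]
    filter_upwards [key] with n hn
    rw [e4, e4, e2, e2, e1] at hn
    have e3 : ∫ z, ψ z / z.im ^ 2 * (f n z ^ 2 * g n z ^ 2) =
        II ψ (fun z => f n z ^ 2 * g n z ^ 2) := by
      unfold II
      congr 1; funext z; ring
    rw [e3] at hn
    exact hn
  refine ⟨main, ?_, by linarith, by linarith, by linarith⟩
  rintro ⟨A, hA⟩ hex ε hε
  obtain ⟨m, hm⟩ : ∃ m, m = II ψ (fun _ => 1) := ⟨_, rfl⟩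
  have hpos : ∀ F : ℂ → ℝ, (∀ z, 0 ≤ F z) → 0 ≤ II ψ F := fun F hF =>
    integral_nonneg fun z => div_nonneg (mul_nonneg (h0 z) (hF z)) (sq_nonneg _)
  have hm0 : 0 ≤ m := by rw [hm]; exact hpos _ fun _ => zero_le_one
  -- choice of the small parameter
  obtain ⟨δ, hδ0, hδ⟩ : ∃ δ : ℝ, 0 < δ ∧
      2 / 3 * √(δ + δ * (2 * |A|) + δ ^ 2) + δ * √((1 + |A|) * (1 + |A|)) < ε := by
    have hc : Continuous (fun δ : ℝ => 2 / 3 * √(δ + δ * (2 * |A|) + δ ^ 2) +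
        δ * √((1 + |A|) * (1 + |A|))) := by fun_prop
    have h1 := (hc.tendsto 0).eventually (gt_mem_nhds (show 2 / 3 * √(0 + 0 * (2 * |A|) + 0 ^ 2) +
        0 * √((1 + |A|) * (1 + |A|)) < ε by simpa using hε))
    have h2 : ∀ᶠ δ : ℝ in 𝓝[>] 0, 0 < δ := eventually_mem_nhdsWithin
    obtain ⟨δ, h4, h6⟩ := ((h2.and (eventually_nhdsWithin_of_eventually_nhds h1))).exists
    exact ⟨δ, h4, h6⟩
  filter_upwards [main δ hδ0, hA, hex.eventually (gt_mem_nhds hδ0)] with n h1 h2 h3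
  obtain ⟨F, hF⟩ : ∃ F, F = II ψ (fun z => f n z ^ 4) := ⟨_, rfl⟩
  obtain ⟨G, hG⟩ : ∃ G, G = II ψ (fun z => g n z ^ 4) := ⟨_, rfl⟩
  have F0 : 0 ≤ F := by rw [hF]; exact hpos _ fun z => by positivity
  have G0 : 0 ≤ G := by rw [hG]; exact hpos _ fun z => by positivity
  have xF : ex ψ (f n) = F - 3 * m := by unfold ex; rw [hF, hm]
  have xG : ex ψ (g n) = G - 3 * m := by unfold ex; rw [hG, hm]
  rw [← hF, ← hG] at h1 h2
  rw [← hm] at h1 ⊢
  rw [xF, xG] at h1 h3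
  have a1 : A ≤ |A| := le_abs_self A
  have b1 : (F - 3 * m + δ) * (G - 3 * m + δ) ≤ δ + δ * (2 * |A|) + δ ^ 2 := by
    have : (F - 3 * m + δ) * (G - 3 * m + δ) = (F - 3 * m) * (G - 3 * m) +
      δ * ((F - 3 * m) + (G - 3 * m)) + δ ^ 2 := by ring
    rw [this]
    have h4 : δ * ((F - 3 * m) + (G - 3 * m)) ≤ δ * (2 * |A|) :=
      mul_le_mul_of_nonneg_left (by linarith [h2.1, h2.2]) hδ0.le
    linarith
  have b2 : (1 + F) * (1 + G) ≤ (1 + |A|) * (1 + |A|) :=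
    mul_le_mul (by linarith [h2.1]) (by linarith [h2.2]) (by linarith) (by positivity)
  have b3 := Real.sqrt_le_sqrt b1
  have b4 := mul_le_mul_of_nonneg_left (Real.sqrt_le_sqrt b2) hδ0.le
  linarith

end Pool.Agent.Results.MP_a28cf0_nt.JointFourthMomentUpperBound
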